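import Mathlib

set_option autoImplicit false

/-!
# Dense graphs contain large complete bipartite graphs
-/

namespace Pool.Agent.TH469.EO

open Finset Filter Topology

/-- A graph on `n` vertices in which every `s` vertices have fewer than `t` common neighbours. -/
lemma count_common {n : ℕ} (G : SimpleGraph (Fin n)) [DecidableRel G.Adj] (s t : ℕ)
    (h : ∀ S : Finset (Fin n), S.card = s →
      (univ.filter (fun v => ∀ u ∈ S, G.Adj u v)).card < t) :
    ∑ v, (G.degree v).choose s ≤ n.choose s * t := by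
  classical
  have h1 : ∑ v, (G.degree v).choose s
      = ∑ v, ∑ S ∈ powersetCard s (univ : Finset (Fin n)), if (∀ u ∈ S, G.Adj u v) then 1 else 0 := by
    refine sum_congr rfl fun v _ => ?_
    rw [← card_filter, ← G.card_neighborFinset_eq_degree v, ← card_powersetCard]
    congr 1
    ext S
    rw [mem_powersetCard, mem_filter, mem_powersetCard]
    constructor
    · rintro ⟨h2, h3⟩
      refine ⟨⟨subset_univ _, h3⟩, fun u hu => ?_⟩
      have := h2 hu
      rw [SimpleGraph.mem_neighborFinset] at this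
      exact this.symm
    · rintro ⟨⟨_, h3⟩, h4⟩
      refine ⟨fun u hu => ?_, h3⟩
      rw [SimpleGraph.mem_neighborFinset]
      exact (h4 u hu).symm
  rw [h1, sum_comm]
  have h2 : ∀ S ∈ powersetCard s (univ : Finset (Fin n)),
      (∑ v, if (∀ u ∈ S, G.Adj u v) then 1 else 0) ≤ t := by
    intro S hS
    rw [mem_powersetCard] at hS
    rw [← card_filter]
    exact (h S hS.2).le
  refine (sum_le_sum h2).trans ?_
  rw [sum_const, card_powersetCard, smul_eq_mul, Finset.card_univ, Fintype.card_fin]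

/-- Many vertices have large degree. -/
lemma many_high {n : ℕ} (G : SimpleGraph (Fin n)) [DecidableRel G.Adj] (ε : ℝ) (_hε : 0 < ε)
    (hE : ε * (n : ℝ) ^ 2 < (G.edgeSet.ncard : ℝ)) :
    ε * n ≤ ((univ.filter (fun v => ε * n ≤ (G.degree v : ℝ))).card : ℝ) := by
  classical
  by_contra hcon
  rw [not_le] at hcon
  have h1 : ∑ v, G.degree v = 2 * G.edgeFinset.card := G.sum_degrees_eq_twice_card_edges
  have h2 : G.edgeSet.ncard = G.edgeFinset.card := by
    rw [← SimpleGraph.coe_edgeFinset, Set.ncard_coe_finset]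
  have h3 : (∑ v, (G.degree v : ℝ)) = 2 * (G.edgeSet.ncard : ℝ) := by
    rw [h2]
    exact_mod_cast h1
  have h4 : ∀ v : Fin n, (G.degree v : ℝ) ≤ n := by
    intro v
    have := G.degree_lt_card_verts v
    rw [Fintype.card_fin] at this
    exact_mod_cast this.le
  set H := univ.filter (fun v => ε * n ≤ (G.degree v : ℝ)) with hH
  have h5 : (∑ v, (G.degree v : ℝ)) = ∑ v ∈ H, (G.degree v : ℝ)
      + ∑ v ∈ univ.filter (fun v => ¬ (ε * n ≤ (G.degree v : ℝ))), (G.degree v : ℝ) :=
    (sum_filter_add_sum_filter_not _ _ _).symm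
  have h6 : ∑ v ∈ H, (G.degree v : ℝ) ≤ H.card * n := by
    calc ∑ v ∈ H, (G.degree v : ℝ) ≤ ∑ v ∈ H, (n : ℝ) := sum_le_sum fun v _ => h4 v
      _ = H.card * n := by rw [sum_const, nsmul_eq_mul]
  have h7 : ∑ v ∈ univ.filter (fun v => ¬ (ε * n ≤ (G.degree v : ℝ))), (G.degree v : ℝ) ≤ n * (ε * n) := by
    calc ∑ v ∈ univ.filter (fun v => ¬ (ε * n ≤ (G.degree v : ℝ))), (G.degree v : ℝ)
        ≤ ∑ v ∈ univ.filter (fun v => ¬ (ε * n ≤ (G.degree v : ℝ))), (ε * n) := by
          refine sum_le_sum fun v hv => ?_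
          rw [mem_filter, not_le] at hv
          exact hv.2.le
      _ = ((univ.filter (fun v => ¬ (ε * n ≤ (G.degree v : ℝ)))).card : ℝ) * (ε * n) := by
          rw [sum_const, nsmul_eq_mul]
      _ ≤ n * (ε * n) := by
          apply mul_le_mul_of_nonneg_right _ (by positivity)
          have : (univ.filter (fun v : Fin n => ¬ (ε * n ≤ (G.degree v : ℝ)))).card ≤ n := by
            refine (card_le_univ _).trans ?_
            rw [Fintype.card_fin]
          exact_mod_cast this
  have h8 : (H.card : ℝ) * n ≤ (ε * n) * n := mul_le_mul_of_nonneg_right hcon.le (by positivity)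
  nlinarith

/-- **Kővári–Sós–Turán**, qualitative form. -/
theorem kst (s t : ℕ) (ε : ℝ) (hε : 0 < ε) : ∃ N : ℕ, ∀ n : ℕ, N ≤ n → ∀ G : SimpleGraph (Fin n),
    ε * (n : ℝ) ^ 2 < (G.edgeSet.ncard : ℝ) →
    ∃ (a : Fin s → Fin n) (b : Fin t → Fin n), Function.Injective a ∧ Function.Injective b ∧
      ∀ i j, G.Adj (a i) (b j) := by
  classical
  -- choose N such that ε n ≥ 2 s and (ε/2)^s ε n > t
  obtain ⟨N1, hN1⟩ := exists_nat_gt ((2 * s : ℝ) / ε)
  obtain ⟨N2, hN2⟩ := exists_nat_gt ((t : ℝ) / ((ε / 2) ^ s * ε))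
  refine ⟨max N1 N2 + 1, fun n hn G hE => ?_⟩
  by_contra hcon
  have hlt : ∀ S : Finset (Fin n), S.card = s →
      (univ.filter (fun v => ∀ u ∈ S, G.Adj u v)).card < t := by
    intro S hS
    by_contra hc
    rw [not_lt] at hc
    apply hcon
    obtain ⟨T, hT, hTc⟩ := exists_subset_card_eq hc
    let e := (S.equivFinOfCardEq hS).symm
    let e' := (T.equivFinOfCardEq hTc).symm
    refine ⟨fun i => (e i : Fin n), fun j => (e' j : Fin n), ?_, ?_, ?_⟩
    · exact Subtype.val_injective.comp e.injective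
    · exact Subtype.val_injective.comp e'.injective
    · intro i j
      have h1 := hT (e' j).2
      rw [mem_filter] at h1
      exact h1.2 _ (e i).2
  have h1 := count_common G s t hlt
  have h2 := many_high G ε hε hE
  have hn1 : N1 ≤ n := by omega
  have hn2 : N2 ≤ n := by omega
  have hnpos : (0 : ℝ) < n := by
    have : 0 < n := by omega
    exact_mod_cast this
  have h3 : (2 * s : ℝ) < ε * n := by
    have : (2 * s : ℝ) / ε < n := lt_of_lt_of_le hN1 (by exact_mod_cast hn1)
    rw [div_lt_iff₀ hε] at this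
    linarith
  have h4 : (t : ℝ) < (ε / 2) ^ s * (ε * n) := by
    have h5 : (t : ℝ) / ((ε / 2) ^ s * ε) < n := lt_of_lt_of_le hN2 (by exact_mod_cast hn2)
    rw [div_lt_iff₀ (by positivity)] at h5
    linarith
  have hfac : (0 : ℝ) < (s.factorial : ℝ) := by exact_mod_cast s.factorial_pos
  -- lower bound on each high-degree vertex
  have h5 : ∀ v ∈ univ.filter (fun v => ε * n ≤ (G.degree v : ℝ)),
      ((ε / 2) * n) ^ s / s.factorial ≤ ((G.degree v).choose s : ℝ) := by
    intro v hv
    rw [mem_filter] at hv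
    have h6 := Nat.pow_le_choose (α := ℝ) s (G.degree v)
    refine le_trans ?_ h6
    apply div_le_div_of_nonneg_right _ hfac.le
    apply pow_le_pow_left₀ (by positivity)
    have h7 : s ≤ G.degree v + 1 := by
      have : (s : ℝ) ≤ (G.degree v : ℝ) := by linarith [hv.2]
      have : s ≤ G.degree v := by exact_mod_cast this
      omega
    push_cast [Nat.cast_sub h7]
    linarith [hv.2]
  have h6 : (ε * n) * (((ε / 2) * n) ^ s / s.factorial) ≤ ∑ v, ((G.degree v).choose s : ℝ) := by
    calc (ε * n) * (((ε / 2) * n) ^ s / s.factorial)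
        ≤ ((univ.filter (fun v => ε * n ≤ (G.degree v : ℝ))).card : ℝ)
          * (((ε / 2) * n) ^ s / s.factorial) := mul_le_mul_of_nonneg_right h2 (by positivity)
      _ = ∑ v ∈ univ.filter (fun v => ε * n ≤ (G.degree v : ℝ)),
            (((ε / 2) * n) ^ s / s.factorial) := by rw [sum_const, nsmul_eq_mul]
      _ ≤ ∑ v ∈ univ.filter (fun v => ε * n ≤ (G.degree v : ℝ)), ((G.degree v).choose s : ℝ) :=
          sum_le_sum h5
      _ ≤ ∑ v, ((G.degree v).choose s : ℝ) :=
          sum_le_sum_of_subset_of_nonneg (subset_univ _) fun _ _ _ => by positivity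
  have h7 : (∑ v, ((G.degree v).choose s : ℝ)) ≤ ((n : ℝ) ^ s / s.factorial) * t := by
    have h8 : ((∑ v, (G.degree v).choose s : ℕ) : ℝ) ≤ ((n.choose s * t : ℕ) : ℝ) := by exact_mod_cast h1
    push_cast at h8
    refine h8.trans ?_
    apply mul_le_mul_of_nonneg_right _ (by positivity)
    exact Nat.choose_le_pow_div s n
  have h8 := h6.trans h7
  have h9 : (ε * n) * ((ε / 2) ^ s * (n : ℝ) ^ s / s.factorial) ≤ ((n : ℝ) ^ s / s.factorial) * t := by
    rw [mul_pow] at h8
    exact h8
  have h10 : 0 < (n : ℝ) ^ s / s.factorial := by positivity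
  have h11 : ((n : ℝ) ^ s / s.factorial) * ((ε / 2) ^ s * (ε * n)) ≤ ((n : ℝ) ^ s / s.factorial) * t := by
    refine le_trans (le_of_eq ?_) h9
    ring
  have h12 := le_of_mul_le_mul_left h11 h10
  linarith

end Pool.Agent.TH469.EO
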