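import Pool.Agent.W153.EO.Sep
import Pool.Agent.W153.EO.Count
import Pool.Agent.TH469.EO.Kst

set_option autoImplicit false

/-!
# The extremal function of the path `3 6 5 1 2 4` is not polylogarithmic times `n`
-/

namespace Pool.Agent.TH469.EO

open Filter Topology Pool.Agent.W153.EO

/-- The numerical estimate. -/
lemma estimate2 (C : ℝ) (c : ℕ) (b : ℕ) (hb : 1 ≤ b) (hlarge : 4 * |C| * (5 * (b : ℝ) ^ 2) ^ c < 2 ^ b)
    (n : ℕ) (hn : n = 2 ^ b * (b * 2 ^ b + 2 ^ b) ^ b + (2 * (b * 2 ^ b)) ^ b) :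
    C * (n : ℝ) * Real.log (n : ℝ) ^ c < (((2 * (b * 2 ^ b)) ^ b * 2 ^ b : ℕ) : ℝ) := by
  have hb' : (0 : ℝ) < b := by exact_mod_cast hb
  have hb1 : (1 : ℝ) ≤ b := by exact_mod_cast hb
  set X : ℝ := ((b : ℝ) * 2 ^ b) ^ b with hX
  have hXpos : 0 < X := by positivity
  have h2b : (1 : ℝ) ≤ 2 ^ b := one_le_pow₀ (by norm_num)
  have hnX : (n : ℝ) ≤ 4 * 2 ^ b * X := by
    rw [hn]
    push_cast
    have e1 : ((b : ℝ) * 2 ^ b + 2 ^ b) ^ b = (2 ^ b) ^ b * ((b : ℝ) + 1) ^ b := by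
      rw [← mul_pow]
      congr 1
      ring
    have e2 : (2 * ((b : ℝ) * 2 ^ b)) ^ b = 2 ^ b * X := by
      rw [mul_pow, hX]
    rw [e1, e2]
    have e3 : (2 ^ b) ^ b * ((b : ℝ) + 1) ^ b ≤ 3 * X := by
      calc ((2 : ℝ) ^ b) ^ b * ((b : ℝ) + 1) ^ b ≤ (2 ^ b) ^ b * (3 * (b : ℝ) ^ b) :=
            mul_le_mul_of_nonneg_left (pow_ratio b hb) (by positivity)
        _ = 3 * X := by
            rw [hX, mul_pow]
            ring
    calc (2 : ℝ) ^ b * ((2 ^ b) ^ b * ((b : ℝ) + 1) ^ b) + 2 ^ b * X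
        ≤ 2 ^ b * (3 * X) + 2 ^ b * X := by
          have := mul_le_mul_of_nonneg_left e3 (by positivity : (0 : ℝ) ≤ 2 ^ b)
          linarith
      _ = 4 * 2 ^ b * X := by ring
  have hnpos : 0 < n := by
    rw [hn]
    have : 0 < (2 * (b * 2 ^ b)) ^ b := by positivity
    omega
  have hn1 : (1 : ℝ) ≤ n := by exact_mod_cast hnpos
  have hlog0 : 0 ≤ Real.log n := Real.log_nonneg hn1
  have hlog2 : Real.log 2 ≤ 1 := by
    have := Real.log_two_lt_d9
    linarith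
  have hlog2' : 0 ≤ Real.log 2 := Real.log_nonneg (by norm_num)
  have hlog : Real.log n ≤ 5 * (b : ℝ) ^ 2 := by
    calc Real.log n ≤ Real.log (4 * 2 ^ b * X) := Real.log_le_log (by linarith) hnX
      _ = 2 * Real.log 2 + b * Real.log 2 + b * (Real.log b + b * Real.log 2) := by
          rw [Real.log_mul (by positivity) (by positivity), Real.log_mul (by positivity) (by positivity),
            Real.log_pow, hX, Real.log_pow, Real.log_mul (by positivity) (by positivity), Real.log_pow,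
            show (4 : ℝ) = 2 ^ 2 by norm_num, Real.log_pow]
          push_cast
          ring
      _ ≤ 2 * 1 + b * 1 + b * (b + b * 1) := by
          have h1 := log_nat_le b hb
          have h2 : (b : ℝ) * Real.log 2 ≤ b * 1 := mul_le_mul_of_nonneg_left hlog2 hb'.le
          have h3 : (b : ℝ) * (Real.log b + b * Real.log 2) ≤ b * (b + b * 1) :=
            mul_le_mul_of_nonneg_left (by linarith) hb'.le
          linarith
      _ ≤ 5 * (b : ℝ) ^ 2 := by nlinarith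
  have hE : (((2 * (b * 2 ^ b)) ^ b * 2 ^ b : ℕ) : ℝ) = 2 ^ b * (2 ^ b * X) := by
    push_cast
    rw [mul_pow, hX]
    ring
  rw [hE]
  calc C * (n : ℝ) * Real.log n ^ c ≤ |C| * n * Real.log n ^ c := by
        apply mul_le_mul_of_nonneg_right _ (by positivity)
        exact mul_le_mul_of_nonneg_right (le_abs_self C) (by positivity)
    _ ≤ |C| * (4 * 2 ^ b * X) * (5 * (b : ℝ) ^ 2) ^ c := by
        apply mul_le_mul _ (pow_le_pow_left₀ hlog0 hlog c) (by positivity) (by positivity)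
        exact mul_le_mul_of_nonneg_left hnX (abs_nonneg C)
    _ = (4 * |C| * (5 * (b : ℝ) ^ 2) ^ c) * (2 ^ b * X) := by ring
    _ < 2 ^ b * (2 ^ b * X) := by
        apply mul_lt_mul_of_pos_right hlarge (by positivity)

lemma exists_b2 (C : ℝ) (c : ℕ) : ∃ b : ℕ, 1 ≤ b ∧ 4 * |C| * (5 * (b : ℝ) ^ 2) ^ c < 2 ^ b := by
  have h1 : Tendsto (fun b : ℕ => (b : ℝ) ^ (2 * c) / 2 ^ b) atTop (𝓝 0) :=
    tendsto_pow_const_div_const_pow_of_one_lt (2 * c) (by norm_num)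
  have h2 := h1.const_mul (4 * |C| * 5 ^ c)
  rw [mul_zero] at h2
  have h3 : ∀ᶠ b : ℕ in atTop, 4 * |C| * 5 ^ c * ((b : ℝ) ^ (2 * c) / 2 ^ b) < 1 :=
    h2.eventually_lt_const (by norm_num)
  obtain ⟨b, hb⟩ := (h3.and (eventually_ge_atTop 1)).exists
  refine ⟨b, hb.2, ?_⟩
  have h4 := hb.1
  rw [← mul_div_assoc, div_lt_one (by positivity)] at h4
  calc 4 * |C| * (5 * (b : ℝ) ^ 2) ^ c = 4 * |C| * 5 ^ c * (b : ℝ) ^ (2 * c) := by
        rw [mul_pow, ← pow_mul]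
        ring
    _ < 2 ^ b := h4

/-- The lower bound: more than `C n (log n) ^ c` edges. -/
theorem lower2 (C : ℝ) (c : ℕ) : ∃ n : ℕ, 2 ≤ n ∧ ∃ G : SimpleGraph (Fin n), ∃ g : Sym2 (Fin n) → ℕ,
    Set.InjOn g G.edgeSet ∧ ¬ Cont G g ∧ C * (n : ℝ) * Real.log (n : ℝ) ^ c < (G.edgeSet.ncard : ℝ) := by
  obtain ⟨b, hb1, hb⟩ := exists_b2 C c
  obtain ⟨G, g, hg, hC, hcard⟩ := transport (host b (2 ^ b) (b * 2 ^ b)) (ord b (2 ^ b) (b * 2 ^ b))
    (ord_injOn _ _ _) (host_avoids _ _ _)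
  have hn := host_card b (2 ^ b) (b * 2 ^ b)
  refine ⟨_, ?_, G, g, hg, hC, ?_⟩
  · rw [hn]
    have h1 : 2 ≤ 2 ^ b := by
      calc 2 = 2 ^ 1 := by norm_num
        _ ≤ 2 ^ b := Nat.pow_le_pow_right (by norm_num) hb1
    have h2 : 2 ^ b ≤ (2 * (b * 2 ^ b)) ^ b := by
      apply Nat.pow_le_pow_left
      have : 1 ≤ b * 2 ^ b := Nat.one_le_iff_ne_zero.mpr (by positivity)
      omega
    omega
  · refine lt_of_lt_of_le (estimate2 C c b hb1 hb _ hn) ?_
    rw [hcard]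
    exact_mod_cast host_edges b (2 ^ b) (b * 2 ^ b)

/-- Dense edge-ordered graphs contain the pattern. -/
theorem dense (ε : ℝ) (hε : 0 < ε) : ∃ N : ℕ, ∀ n : ℕ, N ≤ n → ∀ (G : SimpleGraph (Fin n))
    (M : Sym2 (Fin n) → ℕ), Set.InjOn M G.edgeSet → ¬ Cont G M →
    (G.edgeSet.ncard : ℝ) ≤ ε * (n : ℝ) ^ 2 := by
  obtain ⟨N1, K1, hNK⟩ := exists_host
  obtain ⟨N, hN⟩ := kst N1 K1 ε hε
  refine ⟨N, fun n hn G M hM hC => ?_⟩
  by_contra hcon
  rw [not_le] at hcon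
  obtain ⟨a, b, ha, hb, hab⟩ := hN n hn G hcon
  apply hC
  have hdisj : ∀ i j, a i ≠ b j := fun i j => (hab i j).ne
  let f : Fin N1 ⊕ Fin K1 → Fin n := Sum.elim a b
  have hf : Function.Injective f := by
    rintro (x | x) (y | y) h
    · exact congrArg Sum.inl (ha h)
    · exact absurd h (hdisj x y)
    · exact absurd h.symm (hdisj y x)
    · exact congrArg Sum.inr (hb h)
  have hadj : ∀ u v, (completeBipartiteGraph (Fin N1) (Fin K1)).Adj u v → G.Adj (f u) (f v) := by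
    rintro (x | x) (y | y) h
    · simp at h
    · exact hab x y
    · exact (hab y x).symm
    · simp at h
  have hmem : ∀ e ∈ (completeBipartiteGraph (Fin N1) (Fin K1)).edgeSet, e.map f ∈ G.edgeSet := by
    intro e he
    induction e using Sym2.ind with
    | _ u v => exact hadj u v he
  have hinj : Set.InjOn (fun e => M (e.map f)) (completeBipartiteGraph (Fin N1) (Fin K1)).edgeSet := by
    intro x hx y hy h
    exact Sym2.map.injective hf (hM (hmem x hx) (hmem y hy) h)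
  obtain ⟨φ, h1, h2, h3⟩ := hNK _ hinj
  refine ⟨f ∘ φ, hf.comp h1, fun u v huv => hadj _ _ (h2 u v huv), ?_⟩
  intro e₁ he₁ e₂ he₂ hlt
  have := h3 e₁ he₁ e₂ he₂ hlt
  simpa only [Sym2.map_map] using this

end Pool.Agent.TH469.EO
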